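import Mathlib

/-!
# The intermediate logic of the product order on `ω ^ n` is not locally finite for `n ≥ 2`

For `n = 2` think of the point `(x, y)` with `x + y ≤ m` as the word of length `m - x - y` with
letters `x, x + 1, ..., m - y - 1` read modulo `3`. Going up in the order means passing to a factor.
The formulas `Q L t` say that the word has no factor of length `L` starting with the letter `t`;
they satisfy the recursion `Q (L + 1) t = Q L (t + 2) → Q L t ∨ Q L (t + 1)`.
-/

set_option autoImplicit false

namespace Pool.Agent.Results.MP_d96af6_lc.NotLocallyFinite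

/-- Propositional formulas in the variables `p 0, p 1, ...`. -/
inductive Fml : Type
  | var : ℕ → Fml
  | bot : Fml
  | and : Fml → Fml → Fml
  | or : Fml → Fml → Fml
  | imp : Fml → Fml → Fml

/-- The formula contains only the variables `p 0, ..., p (k - 1)`. -/
def Fml.InVars (k : ℕ) : Fml → Prop
  | .var i => i < k
  | .bot => True
  | .and φ ψ => φ.InVars k ∧ ψ.InVars k
  | .or φ ψ => φ.InVars k ∧ ψ.InVars k
  | .imp φ ψ => φ.InVars k ∧ ψ.InVars k

/-- The biconditional. -/
def Fml.iff (φ ψ : Fml) : Fml := .and (.imp φ ψ) (.imp ψ φ)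

/-- Kripke forcing at a point of a preordered set under a valuation of the variables. -/
def Forces {W : Type} [Preorder W] (V : ℕ → Set W) : Fml → W → Prop
  | .var i, x => x ∈ V i
  | .bot, _ => False
  | .and φ ψ, x => Forces V φ x ∧ Forces V ψ x
  | .or φ ψ, x => Forces V φ x ∨ Forces V ψ x
  | .imp φ ψ, x => ∀ y, x ≤ y → Forces V φ y → Forces V ψ y

/-- The intermediate logic of `(W, ≤)`: the formulas true at every point under every
valuation by upper sets. -/
def ILog (W : Type) [Preorder W] : Set Fml :=
  {φ | ∀ V : ℕ → Set W, (∀ i, IsUpperSet (V i)) → ∀ x, Forces V φ x}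

/-- The formula saying that there is no factor of length `L + 1` starting with letter `t`. -/
def Q : ℕ → ZMod 3 → Fml
  | 0, t => .var t.val
  | L + 1, t => .imp (Q L (t + 2)) (.or (Q L t) (Q L (t + 1)))

theorem Q_inVars : ∀ (L : ℕ) (t : ZMod 3), (Q L t).InVars 3
  | 0, t => ZMod.val_lt t
  | L + 1, t => ⟨Q_inVars L _, Q_inVars L _, Q_inVars L _⟩

variable {n : ℕ}

/-- The valuation: `p t` holds at `x` if there is no position `i ≡ t` modulo `3` with
`x 0 ≤ i` and `i + 1 + x 1 ≤ m`. -/
def val (m : ℕ) (t : ℕ) : Set (Fin (n + 2) → ℕ) :=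
  {x | ∀ i : ℕ, (i : ZMod 3) = (t : ZMod 3) → ¬ (x 0 ≤ i ∧ i + 1 + x 1 ≤ m)}

theorem val_upper (m t : ℕ) : IsUpperSet (val (n := n) m t) := by
  intro x y hxy hx i hi h
  have h0 : x 0 ≤ y 0 := hxy 0
  have h1 : x 1 ≤ y 1 := hxy 1
  exact hx i hi ⟨by omega, by omega⟩

/-- The point of the frame with first two coordinates `a, b` above `x`. -/
theorem exists_point (x : Fin (n + 2) → ℕ) (a b : ℕ) (ha : x 0 ≤ a) (hb : x 1 ≤ b) :
    ∃ y, x ≤ y ∧ y 0 = a ∧ y 1 = b := by
  refine ⟨Function.update (Function.update x 0 a) 1 b, ?_, ?_, ?_⟩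
  · intro j
    by_cases h1 : j = 1
    · subst h1
      simpa using hb
    · rw [Function.update_of_ne h1]
      by_cases h0 : j = 0
      · subst h0
        simpa using ha
      · rw [Function.update_of_ne h0]
  · rw [Function.update_of_ne (by simp)]
    simp
  · simp

theorem forces_Q (m : ℕ) : ∀ (L : ℕ) (t : ZMod 3) (x : Fin (n + 2) → ℕ),
    Forces (val m) (Q L t) x ↔
      ∀ i : ℕ, (i : ZMod 3) = t → ¬ (x 0 ≤ i ∧ i + (L + 1) + x 1 ≤ m)
  | 0, t, x => by
    simp only [Q, Forces, val, Set.mem_ofPred_eq, ZMod.natCast_val, ZMod.cast_id', id, zero_add]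
  | L + 1, t, x => by
    simp only [Q, Forces]
    have ih := forces_Q m L
    constructor
    · intro H i hi hxi
      obtain ⟨y, hxy, hy0, hy1⟩ := exists_point x i (m - (i + (L + 1 + 1))) hxi.1 (by omega)
      have h1 : Forces (val m) (Q L (t + 2)) y := by
        rw [ih]
        intro j hj hyj
        -- the factor has only two windows of length `L + 1`
        have hj' : j = i ∨ j = i + 1 := by omega
        rcases hj' with rfl | rfl
        · rw [hi] at hj
          have : (2 : ZMod 3) = 0 := by
            have := hj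
            calc (2 : ZMod 3) = (t + 2) - t := by ring
              _ = t - t := by rw [← this]
              _ = 0 := by ring
          exact absurd this (by decide)
        · push_cast at hj
          rw [hi] at hj
          have : (1 : ZMod 3) = 2 := by
            calc (1 : ZMod 3) = (t + 1) - t := by ring
              _ = (t + 2) - t := by rw [hj]
              _ = 2 := by ring
          exact absurd this (by decide)
      rcases H y hxy h1 with h | h
      · rw [ih] at h
        exact h i hi ⟨by omega, by omega⟩
      · rw [ih] at h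
        refine h (i + 1) ?_ ⟨by omega, by omega⟩
        push_cast
        rw [hi]
    · intro H y hxy hy
      have hx0 : x 0 ≤ y 0 := hxy 0
      have hx1 : x 1 ≤ y 1 := hxy 1
      rw [ih] at hy
      by_contra hcon
      rw [not_or, ih, ih] at hcon
      obtain ⟨hc1, hc2⟩ := hcon
      push Not at hc1 hc2
      obtain ⟨i, hi, hi1, hi2⟩ := hc1
      obtain ⟨j, hj, hj1, hj2⟩ := hc2
      rcases lt_trichotomy i j with hij | hij | hij
      · exact H i hi ⟨by omega, by omega⟩
      · subst hij
        rw [hi] at hj
        have : (1 : ZMod 3) = 0 := by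
          calc (1 : ZMod 3) = (t + 1) - t := by ring
            _ = t - t := by rw [← hj]
            _ = 0 := by ring
        exact absurd this (by decide)
      · -- the window starting at `j + 1` has letter `t + 2`
        refine hy (j + 1) ?_ ⟨by omega, by omega⟩
        push_cast
        rw [hj]
        ring

/-- `Q L 0` fails at the origin for `m = L + 1` while `Q L' 0` holds there if `L < L'`. -/
theorem separate {L L' : ℕ} (h : L < L') :
    ¬ Forces (val (n := n) (L + 1)) (Q L 0) 0 ∧ Forces (val (n := n) (L + 1)) (Q L' 0) 0 := by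
  constructor
  · rw [forces_Q]
    intro hQ
    exact hQ 0 (by simp) ⟨by simp, by simp⟩
  · rw [forces_Q]
    intro i _ hi
    have := hi.2
    simp only [Pi.zero_apply] at this
    omega

/-- For every `n ≥ 2` there are infinitely many intuitionistic formulas in three variables that are
pairwise non-equivalent modulo the intermediate logic of `ω ^ n` with the componentwise order. -/
theorem result (n : ℕ) (_ : 2 ≤ n) : ∃ f : ℕ → Fml, (∀ i, (f i).InVars 3) ∧
    ∀ i j, i ≠ j → Fml.iff (f i) (f j) ∉ ILog (Fin n → ℕ) := by
  obtain ⟨n, rfl⟩ : ∃ k, n = k + 2 := ⟨n - 2, by omega⟩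
  refine ⟨fun L => Q L 0, fun L => Q_inVars L 0, fun i j hij H => ?_⟩
  rcases Nat.lt_or_gt_of_ne hij with h | h
  · obtain ⟨h1, h2⟩ := separate (n := n) h
    exact h1 ((H (val (i + 1)) (val_upper _) 0).2 0 le_rfl h2)
  · obtain ⟨h1, h2⟩ := separate (n := n) h
    exact h1 ((H (val (j + 1)) (val_upper _) 0).1 0 le_rfl h2)

end Pool.Agent.Results.MP_d96af6_lc.NotLocallyFinite
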